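import Pool.Agent.Helper88.GU.St

/-!
# Project GU, second hand-in, module WD: one step of the first stage
-/

set_option autoImplicit false

namespace Pool.Agent.Helper77.GU2

open Polynomial
open Pool.Agent.Helper91.GU Pool.Agent.Helper88.GU

universe u

lemma rEq_rank_one {ι : Type} [Fintype ι] [DecidableEq ι] {A : Type u} [CommRing A]
    (v a b : ι → A) (h : b ⬝ᵥ a = 0) : REq v (v + (v ⬝ᵥ a) • b) := by
  refine ⟨1 + Matrix.replicateCol Unit a * Matrix.replicateRow Unit b, ?_, ?_⟩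
  · rw [Matrix.det_one_add_replicateCol_mul_replicateRow, h, add_zero]
    exact isUnit_one
  · rw [Matrix.vecMul_add, Matrix.vecMul_one, ← Matrix.vecMulVec_eq, Matrix.vecMul_vecMulVec]

/-- adding multiples of the entry `i₀` to the other entries -/
lemma rEq_spread {ι : Type} [Fintype ι] [DecidableEq ι] {A : Type u} [CommRing A]
    (v b : ι → A) (i₀ : ι) (h : b i₀ = 0) : REq v (fun i => v i + b i * v i₀) := by
  have h1 := rEq_rank_one v (Pi.single i₀ 1) b (by rw [dotProduct_single, h, zero_mul])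
  convert h1 using 1
  funext i
  rw [Pi.add_apply, Pi.smul_apply, dotProduct_single, smul_eq_mul, mul_one, mul_comm]

/-- adding a combination of the other entries to the entry `i₀` -/
lemma rEq_gather {ι : Type} [Fintype ι] [DecidableEq ι] {A : Type u} [CommRing A]
    (v : ι → A) (i₀ : ι) (w : A) (hw : w ∈ Ideal.span (v '' {i | i ≠ i₀})) :
    REq v (fun i => if i = i₀ then v i₀ + w else v i) := by
  obtain ⟨a, ha0, ha⟩ : ∃ a : ι → A, a i₀ = 0 ∧ v ⬝ᵥ a = w := by
    refine Submodule.span_induction (p := fun w _ => ∃ a : ι → A, a i₀ = 0 ∧ v ⬝ᵥ a = w)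
      ?_ ?_ ?_ ?_ hw
    · rintro _ ⟨i, hi, rfl⟩
      refine ⟨Pi.single i 1, ?_, ?_⟩
      · rw [Pi.single_eq_of_ne (Ne.symm hi)]
      · rw [dotProduct_single, mul_one]
    · exact ⟨0, rfl, dotProduct_zero v⟩
    · rintro x y _ _ ⟨a, ha0, ha⟩ ⟨b, hb0, hb⟩
      refine ⟨a + b, ?_, ?_⟩
      · rw [Pi.add_apply, ha0, hb0, add_zero]
      · rw [dotProduct_add, ha, hb]
    · rintro c x _ ⟨a, ha0, ha⟩
      refine ⟨c • a, ?_, ?_⟩
      · rw [Pi.smul_apply, ha0, smul_zero]
      · rw [dotProduct_smul, ha]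
  have h1 := rEq_rank_one v a (Pi.single i₀ 1) (by rw [single_dotProduct, ha0, mul_zero])
  convert h1 using 1
  funext i
  rw [Pi.add_apply, Pi.smul_apply, ha, smul_eq_mul]
  split_ifs with hi
  · subst hi; rw [Pi.single_eq_same, mul_one]
  · rw [Pi.single_eq_of_ne hi, mul_zero, add_zero]

/-- **Module WD.** -/
theorem hWD (hB7 : StB7.{u}) (hVC : StVC.{u}) (hWA : StWA.{u}) (hWB : StWB.{u})
    (hWC : StWC.{u}) : StWD.{u} := by
  intro R A _ _ _ _ G m x e hS 𝔨 hSup s₀ D E s k hk v₀ c N hUm hInv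
  obtain ⟨hI1, hI2, hI3, hI4, hI5, hI6, hI7⟩ := hInv
  set k' : Fin s := ⟨k, hk⟩ with hk'
  set kk : Fin (s + 1) := k'.castSucc with hkk
  have hkkv : (kk : ℕ) = k := rfl
  set g : A := c kk with hg
  have hgk : g ∈ 𝔨.map (algebraMap R A) := hI2 k'
  have hgD : (G.Γ g).natDegree ≤ D := hI5 kk (le_of_eq hkkv.symm)
  set u : Fin (s + 1) → A := fun l => if l = kk then v₀ else c l with hu
  -- the other entries together with `g` generate the unit ideal
  have hspan : Ideal.span (insert g (Set.range u)) = ⊤ := by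
    rw [Ideal.eq_top_iff_one]
    obtain ⟨y, hy⟩ := hUm
    rw [← hy]
    refine Ideal.sum_mem _ (fun i _ => Ideal.mul_mem_right _ _ ?_)
    rcases i with i | i
    · refine Ideal.subset_span (Set.mem_insert_of_mem _ ⟨kk, ?_⟩)
      rw [hu]; dsimp only; rw [if_pos rfl]; rfl
    · by_cases hi : i = kk
      · refine Ideal.subset_span (Or.inl ?_)
        rw [hi]; rfl
      · refine Ideal.subset_span (Set.mem_insert_of_mem _ ⟨i, ?_⟩)
        rw [hu]; dsimp only; rw [if_neg hi]; rfl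
  obtain ⟨h, hh, hWA'⟩ := hWA R A 𝔨 hSup (s + 1) g u hgk hspan
  have hhg : ∀ l, algebraMap R A (h l) * g ∈ 𝔨.map (algebraMap R A) := fun l =>
    Ideal.mul_mem_left _ _ hgk
  have hΓh : ∀ l, G.Γ (algebraMap R A (h l) * g) = C (algebraMap R A (h l)) * G.Γ g := by
    intro l; rw [map_mul, hS.r0]
  have hΓhd : ∀ l, (G.Γ (algebraMap R A (h l) * g)).natDegree ≤ D := by
    intro l; rw [hΓh]
    exact (natDegree_C_mul_le _ _).trans hgD
  have hΓadd : ∀ (a : A) (l : Fin (s + 1)) (M : ℕ), D ≤ M → (G.Γ a).natDegree ≤ M →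
      (G.Γ (a + algebraMap R A (h l) * g)).natDegree ≤ M := by
    intro a l M hM ha
    rw [map_add]
    exact (natDegree_add_le _ _).trans (max_le ha ((hΓhd l).trans hM))
  have hΓco : ∀ (a : A) (l : Fin (s + 1)) (M : ℕ), D < M →
      (G.Γ (a + algebraMap R A (h l) * g)).coeff M = (G.Γ a).coeff M := by
    intro a l M hM
    rw [map_add, coeff_add, coeff_eq_zero_of_natDegree_lt ((hΓhd l).trans_lt hM), add_zero]
  set v₀' : A := v₀ + algebraMap R A (h kk) * g with hv₀'
  set c1 : Fin (s + 1) → A := fun l => if l = kk then g else c l + algebraMap R A (h l) * g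
    with hc1
  have hR1 : REq (row v₀ c) (row v₀' c1) := by
    have h1 := rEq_spread (row v₀ c) (Sum.elim (fun _ => algebraMap R A (h kk))
      (fun l => if l = kk then 0 else algebraMap R A (h l))) (Sum.inr kk) (by simp)
    convert h1 using 1
    funext i
    rcases i with i | i
    · rfl
    · change c1 i = c i + (if i = kk then 0 else algebraMap R A (h i)) * c kk
      rw [hc1]; dsimp only
      split_ifs with hi
      · rw [hi, zero_mul, add_zero]
      · rfl
  -- the ideal of the other entries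
  set J : Ideal A := Ideal.span (Set.range fun l => u l + algebraMap R A (h l) * g) with hJ
  have hJh : ∀ P : Ideal A, P.IsPrime → J ≤ P → ((s + 1 : ℕ) : ℕ∞) ≤ P.height := by
    intro P hP hJP
    exact hWA' P hP (fun l => hJP (Ideal.subset_span ⟨l, rfl⟩))
  have hTop := hWB A G J (s + 1) hJh
  -- the finite set of primes
  set 𝔞 : Ideal A := Ideal.span {a | ∃ j : Fin s, (j : ℕ) < k ∧
    a = (G.Γ (c j.castSucc)).coeff (N j)} with h𝔞
  set Rg : Ideal A → Prop := fun P => (∃ l, x l ∉ P) ∧ ¬ 𝔨 ≤ P.comap (algebraMap R A) ∧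
    P.height < ((s + 1 : ℕ) : ℕ∞) with hRg
  have hRgmono : ∀ P P' : Ideal A, P ≤ P' → Rg P' → Rg P := by
    rintro P P' hle ⟨⟨l, hl⟩, h2, h3⟩
    exact ⟨⟨l, fun hl' => hl (hle hl')⟩, fun h4 => h2 (h4.trans (Ideal.comap_mono hle)),
      (Ideal.height_mono hle).trans_lt h3⟩
  obtain ⟨w, hwJ, hwk, Nk, hNk, hwN, hwS⟩ := hWC R A G m x e hS 𝔨 hSup J
    {𝔤 | (𝔤 ∈ 𝔞.minimalPrimes ∨ 𝔤 ∈ (𝔞 ⊔ Ideal.span {algebraMap R A s₀}).minimalPrimes) ∧ Rg 𝔤}
    (by
      refine Set.Finite.subset (Set.Finite.union (Ideal.finite_minimalPrimes_of_isNoetherianRing A 𝔞)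
        (Ideal.finite_minimalPrimes_of_isNoetherianRing A (𝔞 ⊔ Ideal.span {algebraMap R A s₀})))
        (fun 𝔤 h𝔤 => h𝔤.1))
    (by
      rintro 𝔤 ⟨h1, h2⟩
      have hp : 𝔤.IsPrime := by
        rcases h1 with h1 | h1
        · exact h1.1.1
        · exact h1.1.1
      exact ⟨hp, h2.1, h2.2.1, fun hT => absurd (hTop 𝔤 hp hT) (not_le.mpr h2.2.2)⟩)
    (D + E + 1)
  set c' : Fin (s + 1) → A := fun l => if l = kk then g + w else c l + algebraMap R A (h l) * g
    with hc'
  have hc'ne : ∀ l, l ≠ kk → c' l = c l + algebraMap R A (h l) * g := fun l hl => by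
    rw [hc']; dsimp only; rw [if_neg hl]
  have hc'kk : c' kk = g + w := by rw [hc']; dsimp only; rw [if_pos rfl]
  have hR2 : REq (row v₀' c1) (row v₀' c') := by
    have h1 := rEq_gather (row v₀' c1) (Sum.inr kk) w (by
      refine Ideal.span_mono ?_ hwJ
      rintro _ ⟨l, rfl⟩
      by_cases hl : l = kk
      · refine ⟨Sum.inl (), by simp, ?_⟩
        change v₀' = _
        rw [hl, hu]; dsimp only; rw [if_pos rfl]
      · refine ⟨Sum.inr l, ?_, ?_⟩
        · intro hcon; exact hl (Sum.inr_injective hcon)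
        · change c1 l = _
          rw [hc1, hu]; dsimp only; rw [if_neg hl, if_neg hl])
    convert h1 using 1
    funext i
    rcases i with i | i
    · rw [if_neg (by simp)]; rfl
    · by_cases hi : i = kk
      · rw [hi, if_pos rfl]
        change c' kk = c1 kk + w
        rw [hc'kk, hc1]; dsimp only; rw [if_pos rfl]
      · rw [if_neg (fun hcon => hi (Sum.inr_injective hcon))]
        change c' i = c1 i
        rw [hc'ne i hi, hc1]; dsimp only; rw [if_neg hi]
  set N' : Fin s → ℕ := fun j => if j = k' then Nk else N j with hN'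
  have hcs : ∀ j : Fin s, j.castSucc = kk ↔ j = k' := fun j => by
    rw [hkk]; exact Fin.castSucc_injective s |>.eq_iff
  have hlast : Fin.last s ≠ kk := by
    intro hcon
    have : (Fin.last s : ℕ) = (kk : ℕ) := by rw [hcon]
    rw [hkkv, Fin.val_last] at this
    omega
  refine ⟨v₀', c', N', (hB7 A A (RingHom.id A)).1 _ |>.2.2.1 _ _ _ hR1 hR2, ?_, ?_, ?_, ?_, ?_, ?_, ?_⟩
  · exact Ideal.add_mem _ hI1 (hhg kk)
  · intro j
    by_cases hj : j = k'
    · rw [(hcs j).mpr hj, hc'kk]; exact Ideal.add_mem _ hgk hwk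
    · rw [hc'ne _ (fun hcon => hj ((hcs j).mp hcon))]
      exact Ideal.add_mem _ (hI2 j) (hhg _)
  · rw [hc'ne _ hlast, add_sub_right_comm]
    exact Ideal.add_mem _ hI3 (hhg _)
  · exact hΓadd v₀ kk D le_rfl hI4
  · intro j hj
    have hjk : j ≠ kk := by
      intro hcon; rw [hcon, hkkv] at hj; omega
    rw [hc'ne j hjk]
    exact hΓadd (c j) j D le_rfl (hI5 j (by omega))
  · intro j hj
    by_cases hj' : j = k'
    · have e1 : N' j = Nk := by rw [hN']; dsimp only; rw [if_pos hj']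
      rw [(hcs j).mpr hj', hc'kk, e1]
      refine ⟨by omega, ?_⟩
      rw [map_add]
      exact (natDegree_add_le _ _).trans (max_le (hgD.trans (by omega)) hwN)
    · have e1 : N' j = N j := by rw [hN']; dsimp only; rw [if_neg hj']
      have hjlt : (j : ℕ) < k := by
        have : (j : ℕ) ≠ k := fun hcon => hj' (Fin.ext hcon)
        omega
      obtain ⟨h1, h2⟩ := hI6 j hjlt
      rw [e1, hc'ne _ (fun hcon => hj' ((hcs j).mp hcon))]
      exact ⟨h1, hΓadd _ _ _ (by omega) h2⟩
  · intro P hP hPx hPk hPc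
    have h𝔞P : 𝔞 ≤ P := by
      rw [h𝔞, Ideal.span_le]
      rintro _ ⟨j, hj, rfl⟩
      have hj' : j ≠ k' := by
        intro hcon; rw [hcon] at hj; exact lt_irrefl _ hj
      have h1 := hPc j (by omega)
      have e1 : N' j = N j := by rw [hN']; dsimp only; rw [if_neg hj']
      rw [e1, hc'ne _ (fun hcon => hj' ((hcs j).mp hcon)),
        hΓco _ _ _ (by have := (hI6 j hj).1; omega)] at h1
      exact h1
    have hwP : (G.Γ w).coeff Nk ∈ P := by
      have h1 := hPc k' (by rw [hk']; simp)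
      have e1 : N' k' = Nk := by rw [hN']; dsimp only; rw [if_pos rfl]
      rw [e1, ← hkk, hc'kk, map_add, coeff_add,
        coeff_eq_zero_of_natDegree_lt (hgD.trans_lt (by omega)), zero_add] at h1
      exact h1
    have hgen : ∀ Q : Ideal A, Q.IsPrime → 𝔞 ≤ Q → Rg Q → (k : ℕ∞) ≤ Q.height ∧
        (algebraMap R A s₀ ∈ Q → ((k + 1 : ℕ) : ℕ∞) ≤ Q.height) := by
      intro Q hQ hle hRQ
      refine hI7 Q hQ hRQ.1 hRQ.2.1 (fun j hj => hle (Ideal.subset_span ⟨j, hj, rfl⟩))
    by_cases hht : ((s + 1 : ℕ) : ℕ∞) ≤ P.height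
    · constructor
      · refine le_trans ?_ hht
        exact_mod_cast (by omega : k + 1 ≤ s + 1)
      · intro _
        refine le_trans ?_ hht
        exact_mod_cast (by omega : k + 1 + 1 ≤ s + 1)
    · have hRP : Rg P := ⟨hPx, hPk, not_le.mp hht⟩
      constructor
      · exact hVC A 𝔞 ((G.Γ w).coeff Nk) k Rg hRgmono
          (fun Q hQ hRQ => hwS Q ⟨Or.inl hQ, hRQ⟩)
          (fun Q hQ hle hRQ => (hgen Q hQ hle hRQ).1) P hP h𝔞P hRP hwP
      · intro hsP
        refine hVC A (𝔞 ⊔ Ideal.span {algebraMap R A s₀}) ((G.Γ w).coeff Nk) (k + 1) Rg hRgmono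
          (fun Q hQ hRQ => hwS Q ⟨Or.inr hQ, hRQ⟩)
          (fun Q hQ hle hRQ => (hgen Q hQ (le_sup_left.trans hle) hRQ).2 ?_) P hP ?_ hRP hwP
        · exact hle (Ideal.mem_sup_right (Ideal.mem_span_singleton_self _))
        · refine sup_le h𝔞P ?_
          rw [Ideal.span_le, Set.singleton_subset_iff]
          exact hsP

end Pool.Agent.Helper77.GU2
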